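import Mathlib

/-!
# Small everywhere-dominating families and the cofinality of `([2^ℵ₀]^{≤ ℵ₁}, ⊆)`

Let `D` be the least cardinality of an everywhere-dominating family of functions `ω₁ → ω`.
We prove in ZFC:

* `D` is also the least cardinality of a family dominating modulo countable sets, and `ℵ₂ ≤ D`;
* `2^ℵ₁ = max (D, cof ([2^ℵ₀]^{≤ ℵ₁}, ⊆))`;
* a family of pairwise eventually different functions `ω₁ → K` (for example the branches of a
  tree of height `ω₁` whose set of nodes is `K`) has at most `max (D, cof ([K]^{≤ ℵ₁}, ⊆))`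
  members;
* hence a small everywhere-dominating family forces `cof ([2^ℵ₀]^{≤ ℵ₁}, ⊆) = 2^ℵ₁`.

Idea.  A function `x : ω₁ → ω₁` is coded by `γ ↦ e_γ (sup (C ∩ (γ + 1)))`, where `C` is the club of
closure points of `x` and the `e_γ` are injections of `γ + 1` into `ω`.  A bound `f` of the code
gives finite sets `A_γ`, and since only finitely many `c` lie in all late `A_γ`, the function `f`
computes (up to a countable ordinal) a bound for `x`; a second bound then catches `x` in finite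
sets.  Together with cofinal sets of size `ℵ₁` all functions `ω₁ → K` are caught in finite levels,
and a set of pairwise eventually different functions in finite levels is finite.
-/

open Cardinal Set

namespace Pool.Agent.Helper86.CF

/-- the well-ordered set of countable ordinals (order type `ω₁`) -/
abbrev Om : Type := (ℵ₁ : Cardinal.{0}).ord.ToType

/-- every `g : ω₁ → ω` is exceeded everywhere by some member of `F` -/
def EverywhereDominating (F : Set (Om → ℕ)) : Prop :=
  ∀ g : Om → ℕ, ∃ f ∈ F, ∀ a, g a < f a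

/-- every `g : ω₁ → ω` is exceeded by some member of `F` at all but countably many places -/
def DominatingModCountable (F : Set (Om → ℕ)) : Prop :=
  ∀ g : Om → ℕ, ∃ f ∈ F, {a | f a ≤ g a}.Countable

/-- `C` is a cofinal family in the sets of cardinality at most `ℵ₁` -/
def CofinalFamily {K : Type} (C : Set (Set K)) : Prop :=
  (∀ A ∈ C, #A ≤ ℵ₁) ∧ ∀ S : Set K, #S ≤ ℵ₁ → ∃ A ∈ C, S ⊆ A

/-- the least cardinality of an everywhere-dominating family -/
noncomputable def domNum : Cardinal.{0} :=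
  sInf {κ | ∃ F : Set (Om → ℕ), EverywhereDominating F ∧ #F = κ}

/-- the least cardinality of a family dominating modulo countable sets -/
noncomputable def domNumModCountable : Cardinal.{0} :=
  sInf {κ | ∃ F : Set (Om → ℕ), DominatingModCountable F ∧ #F = κ}

/-- the cofinality of `([K]^{≤ ℵ₁}, ⊆)` -/
noncomputable def cofNum (K : Type) : Cardinal.{0} :=
  sInf {κ | ∃ C : Set (Set K), CofinalFamily C ∧ #C = κ}

/-! ### Preliminaries -/

theorem mk_Om : #Om = ℵ₁ := by
  simp [Om]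

theorem countable_Iio (a : Om) : (Set.Iio a).Countable := by
  rw [← le_aleph0_iff_set_countable, ← lt_aleph_one_iff]
  have h := mk_Iio_lt a (by simp [Om])
  rwa [mk_Om] at h

theorem countable_Iic (a : Om) : (Set.Iic a).Countable := by
  rw [← Set.Iio_insert]
  exact (countable_Iio a).insert a

instance : Uncountable Om := by
  rw [← aleph0_lt_mk_iff, mk_Om]; exact aleph0_lt_aleph_one

instance : Infinite Om := inferInstance

theorem bdd {s : Set Om} (hs : s.Countable) : ∃ b, ∀ x ∈ s, x < b := by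
  by_contra hcon
  push Not at hcon
  have hcov : (Set.univ : Set Om) ⊆ ⋃ x ∈ s, Set.Iic x := by
    intro b _
    obtain ⟨x, hx, hbx⟩ := hcon b
    exact Set.mem_biUnion hx hbx
  have : (Set.univ : Set Om).Countable :=
    (hs.biUnion fun x _ => countable_Iic x).mono hcov
  exact Set.not_countable_univ this

/-- a fixed injection of the initial segment below and including `γ` -/
noncomputable def e (γ : Om) : Om → ℕ :=
  Classical.choose (countable_iff_exists_injOn.1 (countable_Iic γ))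

theorem e_injOn (γ : Om) : Set.InjOn (e γ) (Set.Iic γ) :=
  Classical.choose_spec (countable_iff_exists_injOn.1 (countable_Iic γ))

/-- the finite set of `x ≤ γ` with `e γ x < n` -/
def A (γ : Om) (n : ℕ) : Set Om := {x | x ≤ γ ∧ e γ x < n}

theorem A_finite (γ : Om) (n : ℕ) : (A γ n).Finite := by
  apply Set.Finite.of_finite_image (f := e γ)
  · apply (Set.finite_Iio n).subset
    rintro _ ⟨x, hx, rfl⟩
    exact hx.2
  · exact (e_injOn γ).mono fun x hx => hx.1

/-- a set of functions which are pairwise different from some point on and which go through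
finite levels (each from some point on) is finite -/
theorem finite_of_levels {I K : Type*} (b : I → Om → K)
    (hb : ∀ i j, i ≠ j → ∃ a, ∀ c, a ≤ c → b i c ≠ b j c) (h : Om → Set K)
    (hfin : ∀ a, (h a).Finite) (S : Set I)
    (hS : ∀ i ∈ S, ∃ a, ∀ c, a ≤ c → b i c ∈ h c) : S.Finite := by
  by_contra hinf
  have hinf : S.Infinite := hinf
  let u := hinf.natEmbedding S
  have hpair : ∀ p : ℕ × ℕ, ∃ a, (p.1 ≠ p.2 → ∀ c, a ≤ c → b (u p.1) c ≠ b (u p.2) c) := by
    intro p
    by_cases hp : p.1 = p.2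
    · exact ⟨Classical.arbitrary Om, fun h => absurd hp h⟩
    · obtain ⟨a, ha⟩ := hb (u p.1) (u p.2) (fun hh => hp (u.injective (Subtype.ext hh)))
      exact ⟨a, fun _ => ha⟩
  choose q hq using hpair
  have hS' : ∀ n : ℕ, ∃ a, ∀ c, a ≤ c → b (u n) c ∈ h c := fun n => hS (u n) (u n).2
  choose th hth using hS'
  obtain ⟨g, hg⟩ := bdd (s := Set.range q ∪ Set.range th)
    ((Set.countable_range q).union (Set.countable_range _))
  have hinj : Function.Injective (fun n : ℕ => b (u n) g) := by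
    intro m n hmn
    by_contra hne
    exact hq (m, n) hne g (hg _ (Or.inl ⟨(m, n), rfl⟩)).le hmn
  have hsub : Set.range (fun n : ℕ => b (u n) g) ⊆ h g := by
    rintro _ ⟨n, rfl⟩
    exact hth n g (hg _ (Or.inr ⟨n, rfl⟩)).le
  exact Set.infinite_range_of_injective hinj ((hfin g).subset hsub)

/-- the set of `c` which belong to `A γ (f γ)` from some point on -/
def E (f : Om → ℕ) : Set Om := {c | ∃ a, ∀ γ, a ≤ γ → c ∈ A γ (f γ)}

theorem E_finite (f : Om → ℕ) : (E f).Finite :=
  finite_of_levels (fun c (_ : Om) => c) (fun i _ hij => ⟨i, fun _ _ => hij⟩)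
    (fun γ => A γ (f γ)) (fun γ => A_finite γ (f γ)) (E f) (fun _ hi => hi)

theorem exists_G (f : Om → ℕ) (c a : Om) :
    ∃ γ, c ∉ E f → a ≤ γ ∧ c ∉ A γ (f γ) := by
  by_cases hc : c ∈ E f
  · exact ⟨a, fun h => absurd hc h⟩
  · have hc' : ¬ ∃ a, ∀ γ, a ≤ γ → c ∈ A γ (f γ) := hc
    push Not at hc'
    obtain ⟨γ, h1, h2⟩ := hc' a
    exact ⟨γ, fun _ => ⟨h1, h2⟩⟩

/-- a place above `a` where `c` does not belong to `A γ (f γ)` -/
noncomputable def G (f : Om → ℕ) (c a : Om) : Om := Classical.choose (exists_G f c a)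

theorem G_spec (f : Om → ℕ) (c a : Om) (hc : c ∉ E f) :
    a ≤ G f c a ∧ c ∉ A (G f c a) (f (G f c a)) :=
  Classical.choose_spec (exists_G f c a) hc

theorem exists_B (f : Om → ℕ) (η a : Om) : ∃ b, η ≤ b ∧ ∀ c, c ≤ a → G f c a ≤ b := by
  obtain ⟨b, hb⟩ := bdd (s := insert η ((fun c => G f c a) '' Set.Iic a))
    (((countable_Iic a).image _).insert η)
  exact ⟨b, (hb η (Set.mem_insert _ _)).le,
    fun c hc => (hb _ (Set.mem_insert_of_mem _ ⟨c, hc, rfl⟩)).le⟩

/-- the function `ω₁ → ω₁` computed from `f : ω₁ → ω` and the ordinal `η` -/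
noncomputable def B (f : Om → ℕ) (η a : Om) : Om := Classical.choose (exists_B f η a)

theorem B_spec (f : Om → ℕ) (η a : Om) : η ≤ B f η a ∧ ∀ c, c ≤ a → G f c a ≤ B f η a :=
  Classical.choose_spec (exists_B f η a)

theorem wf : WellFounded ((· < ·) : Om → Om → Prop) := wellFounded_lt

/-- closure points of `x` are unbounded -/
theorem closed_unbounded (x : Om → Om) (a : Om) : ∃ d, a < d ∧ ∀ c, c < d → x c < d := by
  have hstep : ∀ b : Om, ∃ b', b < b' ∧ ∀ c, c ≤ b → x c < b' := by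
    intro b
    obtain ⟨b', hb'⟩ := bdd (s := insert b (x '' Set.Iic b)) (((countable_Iic b).image x).insert b)
    exact ⟨b', hb' b (Set.mem_insert _ _), fun c hc => hb' _ (Set.mem_insert_of_mem _ ⟨c, hc, rfl⟩)⟩
  choose s hs1 hs2 using hstep
  let t : ℕ → Om := fun n => Nat.rec a (fun _ b => s b) n
  have hts : ∀ n, t (n + 1) = s (t n) := fun n => rfl
  obtain ⟨d0, hd0⟩ := bdd (s := Set.range t) (Set.countable_range t)
  have hne : {d : Om | ∀ n, t n < d}.Nonempty := ⟨d0, fun n => hd0 _ ⟨n, rfl⟩⟩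
  let d := wf.min _ hne
  have hd : ∀ n, t n < d := wf.min_mem _ hne
  refine ⟨d, hd 0, ?_⟩
  intro c hc
  have : ¬ ∀ n, t n < c := fun h => wf.not_lt_min {d : Om | ∀ n, t n < d} h hc
  push Not at this
  obtain ⟨n, hn⟩ := this
  calc x c < s (t n) := hs2 (t n) c hn
    _ = t (n + 1) := (hts n).symm
    _ < d := hd (n + 1)

/-- **domination of `ω₁ → ω₁`** -/
theorem dominate (F : Set (Om → ℕ)) (hF : DominatingModCountable F) (x : Om → Om) :
    ∃ f ∈ F, ∃ η, ∀ a, x a < B f η a := by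
  classical
  let C : Set Om := {d | ∀ c, c < d → x c < d}
  -- the code
  have hmne : ∀ γ : Om, {μ : Om | ∀ d ∈ C, d ≤ γ → d ≤ μ}.Nonempty := fun γ => ⟨γ, fun d _ h => h⟩
  let m : Om → Om := fun γ => wf.min _ (hmne γ)
  have hm1 : ∀ γ, ∀ d ∈ C, d ≤ γ → d ≤ m γ := fun γ => wf.min_mem _ (hmne γ)
  have hm2 : ∀ γ μ, (∀ d ∈ C, d ≤ γ → d ≤ μ) → m γ ≤ μ := fun γ μ h =>
    not_lt.1 (wf.not_lt_min {μ : Om | ∀ d ∈ C, d ≤ γ → d ≤ μ} h)
  have hmle : ∀ γ, m γ ≤ γ := fun γ => hm2 γ γ (fun d _ h => h)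
  obtain ⟨f, hfF, hf⟩ := hF (fun γ => e γ (m γ))
  obtain ⟨γ₁, hγ₁⟩ := bdd hf
  have hmA : ∀ γ, γ₁ ≤ γ → m γ ∈ A γ (f γ) := fun γ hγ => ⟨hmle γ, by
    by_contra hcon
    exact absurd (hγ₁ γ (not_lt.1 hcon)) (not_lt.2 hγ)⟩
  -- the countable exceptional set
  have hEc : (x '' ({a | m a ∈ E f} ∪ Set.Iio γ₁)).Countable := by
    apply Set.Countable.image
    refine Set.Countable.union ?_ (countable_Iio _)
    have : {a | m a ∈ E f} = ⋃ c ∈ E f, {a | m a = c} := by
      ext a; simp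
    rw [this]
    refine (E_finite f).countable.biUnion fun c _ => ?_
    obtain ⟨d, hcd, hd⟩ := closed_unbounded x c
    refine (countable_Iio d).mono ?_
    intro a ha
    by_contra hda
    have hda' : d ≤ a := not_lt.1 hda
    have h3 := hm1 a d hd hda'
    have ha' : m a = c := ha
    rw [ha'] at h3
    exact absurd hcd (not_lt.2 h3)
  obtain ⟨η, hη⟩ := bdd hEc
  refine ⟨f, hfF, η, fun a => ?_⟩
  by_cases hE : a ∈ {a | m a ∈ E f} ∪ Set.Iio γ₁
  · exact lt_of_lt_of_le (hη _ ⟨a, hE, rfl⟩) (B_spec f η a).1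
  · have hE1 : m a ∉ E f := fun h => hE (Or.inl h)
    have hE2 : γ₁ ≤ a := not_lt.1 fun h => hE (Or.inr h)
    -- the next closure point
    have hne : {d : Om | a < d ∧ d ∈ C}.Nonempty := by
      obtain ⟨d, h1, h2⟩ := closed_unbounded x a
      exact ⟨d, h1, h2⟩
    let d := wf.min _ hne
    have hd : a < d ∧ d ∈ C := wf.min_mem _ hne
    have hdmin : ∀ c, a < c → c ∈ C → d ≤ c := fun c h1 h2 =>
      not_lt.1 (wf.not_lt_min {d : Om | a < d ∧ d ∈ C} ⟨h1, h2⟩)
    have hconst : ∀ γ, a ≤ γ → γ < d → m γ = m a := by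
      intro γ h1 h2
      have key : ∀ δ ∈ C, δ ≤ γ → δ ≤ a := by
        intro δ hδ hle
        by_contra hlt
        exact absurd (lt_of_le_of_lt (le_trans (hdmin δ (not_le.1 hlt) hδ) hle) h2) (lt_irrefl _)
      apply le_antisymm
      · exact hm2 γ (m a) fun δ hδ hle => hm1 a δ hδ (key δ hδ hle)
      · exact hm2 a (m γ) fun δ hδ hle => hm1 γ δ hδ (le_trans hle h1)
    have hG := G_spec f (m a) a hE1
    have hdG : d ≤ G f (m a) a := by
      by_contra hlt
      have hlt' := not_le.1 hlt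
      apply hG.2
      have := hmA (G f (m a) a) (hE2.trans hG.1)
      rwa [hconst _ hG.1 hlt'] at this
    calc x a < d := hd.2 a hd.1
      _ ≤ G f (m a) a := hdG
      _ ≤ B f η a := (B_spec f η a).2 (m a) (hmle a)

/-- a family dominating modulo countable sets has at least `ℵ₂` members -/
theorem aleph_one_lt (F : Set (Om → ℕ)) (hF : DominatingModCountable F) : ℵ₁ < #F := by
  by_contra hcon
  have hle : #F ≤ ℵ₁ := not_lt.1 hcon
  have h1 : #(F × Om) ≤ #Om := by
    rw [mk_prod, lift_id, lift_id, mk_Om]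
    calc #F * ℵ₁ ≤ ℵ₁ * ℵ₁ := by gcongr
      _ = ℵ₁ := mul_eq_self aleph0_lt_aleph_one.le
  obtain ⟨φ⟩ := h1
  have hx : ∀ a : Om, ∃ b, ∀ p : F × Om, φ p ≤ a → B p.1 p.2 a < b := by
    intro a
    obtain ⟨b, hb⟩ := bdd (s := (fun p : F × Om => B p.1 p.2 a) '' {p | φ p ≤ a}) (by
      apply Set.Countable.image
      exact (countable_Iic a).preimage φ.injective)
    exact ⟨b, fun p hp => hb _ ⟨p, hp, rfl⟩⟩
  choose x hx using hx
  obtain ⟨f, hf, η, h⟩ := dominate F hF x
  have h2 := hx (φ (⟨f, hf⟩, η)) (⟨f, hf⟩, η) le_rfl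
  exact absurd (h (φ (⟨f, hf⟩, η))) (not_lt.2 h2.le)

/-- the finite levels catching a function -/
def H (f f' : Om → ℕ) (η a : Om) : Set Om := A (B f η a) (f' a)

theorem H_finite (f f' : Om → ℕ) (η a : Om) : (H f f' η a).Finite := A_finite _ _

theorem catches (F : Set (Om → ℕ)) (hF : DominatingModCountable F) (x : Om → Om) :
    ∃ f ∈ F, ∃ f' ∈ F, ∃ η, ∃ t, ∀ a, t ≤ a → x a ∈ H f f' η a := by
  obtain ⟨f, hf, η, hη⟩ := dominate F hF x
  obtain ⟨f', hf', h⟩ := hF (fun a => e (B f η a) (x a))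
  obtain ⟨t, ht⟩ := bdd h
  refine ⟨f, hf, f', hf', η, t, fun a ha => ⟨(hη a).le, ?_⟩⟩
  by_contra hcon
  exact absurd (ht a (not_lt.1 hcon)) (not_lt.2 ha)

/-- **main inequality** -/
theorem main {K : Type} (I : Type) (b : I → Om → K)
    (hb : ∀ i j, i ≠ j → ∃ a, ∀ c, a ≤ c → b i c ≠ b j c)
    (F : Set (Om → ℕ)) (hF : DominatingModCountable F) (C : Set (Set K)) (hC : CofinalFamily C) :
    #I ≤ max #F #C := by
  classical
  -- injections of the members of `C` into `Om`
  have hj : ∀ A : Set K, ∃ j : K → Om, A ∈ C → Set.InjOn j A := by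
    intro A
    by_cases hA : A ∈ C
    · have h1 : #A ≤ #Om := by rw [mk_Om]; exact hC.1 A hA
      obtain ⟨φ⟩ := h1
      refine ⟨fun k => if hk : k ∈ A then φ ⟨k, hk⟩ else Classical.arbitrary Om, fun _ => ?_⟩
      intro x hx y hy hxy
      simp only [hx, hy, dif_pos] at hxy
      have := φ.injective hxy
      exact congrArg Subtype.val this
    · exact ⟨fun _ => Classical.arbitrary Om, fun h => absurd h hA⟩
  choose j hj using hj
  let P : Type := C × (F × F) × Om
  let lev : P → Om → Set K := fun p a =>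
    {k | k ∈ (p.1 : Set K) ∧ j p.1 k ∈ H p.2.1.1 p.2.1.2 p.2.2 a}
  have hlevfin : ∀ p a, (lev p a).Finite := by
    intro p a
    apply Set.Finite.of_finite_image (f := j (p.1 : Set K))
    · apply (H_finite p.2.1.1 p.2.1.2 p.2.2 a).subset
      rintro _ ⟨k, hk, rfl⟩
      exact hk.2
    · exact (hj _ p.1.2).mono fun k hk => hk.1
  let S : P → Set I := fun p => {i | ∃ t, ∀ a, t ≤ a → b i a ∈ lev p a}
  have hSfin : ∀ p, (S p).Finite := fun p =>
    finite_of_levels b hb (lev p) (hlevfin p) (S p) (fun i hi => hi)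
  have hcover : (Set.univ : Set I) ⊆ ⋃ p, S p := by
    intro i _
    have h1 : #(Set.range (b i)) ≤ ℵ₁ := by
      have := mk_range_le (f := b i)
      rwa [mk_Om] at this
    obtain ⟨A, hA, hAr⟩ := hC.2 _ h1
    obtain ⟨f, hf, f', hf', η, t, h⟩ := catches F hF (fun a => j A (b i a))
    refine Set.mem_iUnion.2 ⟨(⟨A, hA⟩, (⟨f, hf⟩, ⟨f', hf'⟩), η), ?_⟩
    exact ⟨t, fun a ha => ⟨hAr ⟨a, rfl⟩, h a ha⟩⟩
  have hFinf : ℵ₁ ≤ #F := (aleph_one_lt F hF).le
  have hcard : #I ≤ #P * ℵ₀ := by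
    calc #I = #(Set.univ : Set I) := mk_univ.symm
      _ ≤ #(⋃ p, S p : Set I) := mk_le_mk_of_subset hcover
      _ ≤ Cardinal.sum fun p => #(S p) := mk_iUnion_le_sum_mk
      _ ≤ Cardinal.sum fun _ : P => ℵ₀ := Cardinal.sum_le_sum _ _ fun p =>
          (le_aleph0_iff_set_countable.2 (hSfin p).countable)
      _ = #P * ℵ₀ := by simp
  refine hcard.trans ?_
  have hM : ℵ₀ ≤ max #F #C := (aleph0_lt_aleph_one.le.trans hFinf).trans (le_max_left _ _)
  have hP : #P ≤ max #F #C := by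
    have h1 : #P = #C * ((#F * #F) * #Om) := by simp [P]
    rw [h1, mk_Om]
    have hF' : #F ≤ max #F #C := le_max_left _ _
    have hC' : #C ≤ max #F #C := le_max_right _ _
    have hO' : ℵ₁ ≤ max #F #C := hFinf.trans hF'
    calc #C * ((#F * #F) * ℵ₁) ≤ max #F #C * ((max #F #C * max #F #C) * max #F #C) := by
          gcongr
      _ = max #F #C := by
          rw [mul_eq_self hM, mul_eq_self hM, mul_eq_self hM]
  calc #P * ℵ₀ ≤ max #F #C * max #F #C := by gcongr
    _ = max #F #C := mul_eq_self hM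

/-! ### from domination modulo countable sets to domination everywhere -/

theorem everywhere_of_mod (F : Set (Om → ℕ)) (hF : DominatingModCountable F) :
    ∃ F' : Set (Om → ℕ), EverywhereDominating F' ∧ #F' ≤ #F := by
  classical
  have hcard : #(Om × ℕ) = #Om := by
    rw [mk_prod, lift_id, lift_id, mk_Om, mk_nat]
    exact mul_eq_left aleph0_lt_aleph_one.le aleph0_lt_aleph_one.le aleph0_ne_zero
  obtain ⟨ψ⟩ := Cardinal.eq.1 hcard
  let Φ : (F × F) × (Om × Om) → Om → ℕ := fun p a =>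
    if a < p.2.2 then (p.1.1 : Om → ℕ) (ψ (p.2.1, e p.2.2 a)) else (p.1.2 : Om → ℕ) a
  refine ⟨Set.range Φ, ?_, ?_⟩
  · intro g
    obtain ⟨f₂, hf₂, h₂⟩ := hF g
    obtain ⟨η, hη⟩ := bdd h₂
    -- the countable part of `g`
    let g' : ℕ → ℕ := fun n => if h : ∃ x, x ≤ η ∧ e η x = n then g h.choose else 0
    have hg' : ∀ x, x ≤ η → g' (e η x) = g x := by
      intro x hx
      have h : ∃ y, y ≤ η ∧ e η y = e η x := ⟨x, hx, rfl⟩
      have h1 : g' (e η x) = g h.choose := by
        simp only [g']; rw [dif_pos h]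
      rw [h1]
      congr 1
      exact e_injOn η h.choose_spec.1 hx h.choose_spec.2
    obtain ⟨f₁, hf₁, h₁⟩ := hF (fun a => g' (ψ.symm a).2)
    have hb : ∃ b : Om, ∀ n, ψ (b, n) ∉ {a | f₁ a ≤ g' (ψ.symm a).2} := by
      by_contra hcon
      push Not at hcon
      choose n hn using hcon
      have hinj : Function.Injective (fun b => ψ (b, n b)) := by
        intro b b' hbb
        have := ψ.injective hbb
        exact congrArg Prod.fst this
      have h3 : (Set.univ : Set Om).Countable := by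
        have h4 := h₁.preimage hinj
        refine h4.mono ?_
        intro b _
        exact hn b
      exact Set.not_countable_univ h3
    obtain ⟨b, hb⟩ := hb
    refine ⟨_, ⟨((⟨f₁, hf₁⟩, ⟨f₂, hf₂⟩), (b, η)), rfl⟩, ?_⟩
    intro a
    by_cases ha : a < η
    · have h5 := hb (e η a)
      have h6 : ¬ (f₁ (ψ (b, e η a)) ≤ g' (ψ.symm (ψ (b, e η a))).2) := h5
      rw [Equiv.symm_apply_apply] at h6
      simp only [Φ, ha, if_true]
      rw [← hg' a ha.le]
      exact not_le.1 h6
    · simp only [Φ, ha, if_false]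
      by_contra hcon
      exact ha (hη a (not_lt.1 hcon))
  · refine mk_range_le.trans ?_
    have hFinf : ℵ₁ ≤ #F := (aleph_one_lt F hF).le
    have hM : ℵ₀ ≤ #F := aleph0_lt_aleph_one.le.trans hFinf
    have h1 : #((F × F) × (Om × Om)) = (#F * #F) * (#Om * #Om) := by simp
    rw [h1, mk_Om, mul_eq_self aleph0_lt_aleph_one.le, mul_eq_self hM]
    calc #F * ℵ₁ ≤ #F * #F := by gcongr
      _ = #F := mul_eq_self hM

theorem mod_of_everywhere {F : Set (Om → ℕ)} (hF : EverywhereDominating F) :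
    DominatingModCountable F := by
  intro g
  obtain ⟨f, hf, h⟩ := hF g
  refine ⟨f, hf, ?_⟩
  have : {a | f a ≤ g a} = ∅ := by
    ext a
    simp only [Set.mem_ofPred_eq, Set.mem_empty_iff_false, iff_false, not_le]
    exact h a
  rw [this]; exact Set.countable_empty

theorem univ_dominating : EverywhereDominating (Set.univ : Set (Om → ℕ)) :=
  fun g => ⟨fun a => g a + 1, trivial, fun a => Nat.lt_succ_self _⟩

theorem domNum_mem : ∃ F : Set (Om → ℕ), EverywhereDominating F ∧ #F = domNum :=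
  csInf_mem (s := {κ | ∃ F : Set (Om → ℕ), EverywhereDominating F ∧ #F = κ})
    ⟨_, _, univ_dominating, rfl⟩

theorem domNumMod_mem : ∃ F : Set (Om → ℕ), DominatingModCountable F ∧ #F = domNumModCountable :=
  csInf_mem (s := {κ | ∃ F : Set (Om → ℕ), DominatingModCountable F ∧ #F = κ})
    ⟨_, _, mod_of_everywhere univ_dominating, rfl⟩

theorem cofinal_all (K : Type) : CofinalFamily ({A | #A ≤ ℵ₁} : Set (Set K)) :=
  ⟨fun _ h => h, fun S hS => ⟨S, hS, subset_rfl⟩⟩

theorem cofNum_mem (K : Type) : ∃ C : Set (Set K), CofinalFamily C ∧ #C = cofNum K :=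
  csInf_mem (s := {κ | ∃ C : Set (Set K), CofinalFamily C ∧ #C = κ})
    ⟨_, _, cofinal_all K, rfl⟩

theorem domNum_le {F : Set (Om → ℕ)} (hF : EverywhereDominating F) : domNum ≤ #F :=
  csInf_le' ⟨F, hF, rfl⟩

theorem domNumMod_le {F : Set (Om → ℕ)} (hF : DominatingModCountable F) :
    domNumModCountable ≤ #F :=
  csInf_le' ⟨F, hF, rfl⟩

theorem cofNum_le {K : Type} {C : Set (Set K)} (hC : CofinalFamily C) : cofNum K ≤ #C :=
  csInf_le' ⟨C, hC, rfl⟩

theorem domNum_eq : domNum = domNumModCountable := by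
  apply le_antisymm
  · obtain ⟨F, hF, h⟩ := domNumMod_mem
    obtain ⟨F', hF', h'⟩ := everywhere_of_mod F hF
    rw [← h]
    exact (domNum_le hF').trans h'
  · obtain ⟨F, hF, h⟩ := domNum_mem
    rw [← h]
    exact domNumMod_le (mod_of_everywhere hF)

theorem aleph_two_le : ℵ_ 2 ≤ domNum := by
  obtain ⟨F, hF, h⟩ := domNum_mem
  have h1 := aleph_one_lt F (mod_of_everywhere hF)
  rw [h] at h1
  have h2 : (ℵ_ 2 : Cardinal.{0}) = Order.succ ℵ₁ := by
    have := succ_aleph (1 : Ordinal.{0})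
    rw [this]
    norm_num
  rw [h2]
  exact Order.succ_le_of_lt h1

theorem eventually_different {K : Type} (I : Type) (b : I → Om → K)
    (hb : ∀ i j, i ≠ j → ∃ a, ∀ c, a ≤ c → b i c ≠ b j c) : #I ≤ max domNum (cofNum K) := by
  obtain ⟨F, hF, h⟩ := domNum_mem
  obtain ⟨C, hC, h'⟩ := cofNum_mem K
  rw [← h, ← h']
  exact main I b hb F (mod_of_everywhere hF) C hC

theorem two_power_le : (2 : Cardinal.{0}) ^ ℵ₁ ≤ max domNum (cofNum (ℕ → Bool)) := by
  classical
  have h1 : (2 : Cardinal.{0}) ^ ℵ₁ = #(Om → Bool) := by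
    rw [← mk_Om]; simp
  rw [h1]
  apply eventually_different (K := ℕ → Bool) (Om → Bool)
    (fun y a n => if h : ∃ x, x ≤ a ∧ e a x = n then y h.choose else false)
  intro y y' hyy
  obtain ⟨x, hx⟩ := Function.ne_iff.1 hyy
  refine ⟨x, fun c hc hcon => hx ?_⟩
  have h2 := congrFun hcon (e c x)
  have h : ∃ z, z ≤ c ∧ e c z = e c x := ⟨x, hc, rfl⟩
  simp only [h, dif_pos] at h2
  have h3 : h.choose = x := e_injOn c h.choose_spec.1 hc h.choose_spec.2
  rwa [h3] at h2

theorem two_power_eq : (2 : Cardinal.{0}) ^ ℵ₁ = max domNum (cofNum (ℕ → Bool)) := by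
  apply le_antisymm two_power_le
  apply max_le
  · refine (domNum_le univ_dominating).trans ?_
    rw [mk_univ]
    have h1 : #(Om → ℕ) = ℵ₀ ^ ℵ₁ := by
      rw [← mk_Om]; simp
    rw [h1]
    exact (power_eq_two_power aleph0_lt_aleph_one.le (natCast_lt_aleph0 (n := 2)).le
      aleph0_lt_aleph_one.le).le
  · refine (cofNum_le (cofinal_all (ℕ → Bool))).trans ?_
    refine (mk_bounded_set_le (ℕ → Bool) ℵ₁).trans ?_
    have h1 : #(ℕ → Bool) = 2 ^ ℵ₀ := by simp
    rw [h1, max_eq_left (cantor ℵ₀).le, ← power_mul,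
      aleph0_mul_eq aleph0_lt_aleph_one.le]

theorem small_imp (F : Set (Om → ℕ)) (hF : EverywhereDominating F) (h : #F < 2 ^ ℵ₁) :
    cofNum (ℕ → Bool) = 2 ^ ℵ₁ := by
  have h1 : domNum < 2 ^ ℵ₁ := (domNum_le hF).trans_lt h
  have h2 := two_power_eq
  rcases le_total domNum (cofNum (ℕ → Bool)) with h3 | h3
  · rw [max_eq_right h3] at h2; exact h2.symm
  · rw [max_eq_left h3] at h2; exact absurd h2.symm h1.ne

/-- **Result.** -/
theorem formula :
    domNum = domNumModCountable ∧ ℵ_ 2 ≤ domNum ∧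
    (2 : Cardinal.{0}) ^ ℵ₁ = max domNum (cofNum (ℕ → Bool)) ∧
    (∀ (K I : Type) (b : I → Om → K),
      (∀ i j, i ≠ j → ∃ a, ∀ c, a ≤ c → b i c ≠ b j c) → #I ≤ max domNum (cofNum K)) ∧
    ((∃ F : Set (Om → ℕ), EverywhereDominating F ∧ #F < 2 ^ ℵ₁) →
      cofNum (ℕ → Bool) = 2 ^ ℵ₁) :=
  ⟨domNum_eq, aleph_two_le, two_power_eq, fun _ I b hb => eventually_different I b hb,
    fun ⟨F, hF, h⟩ => small_imp F hF h⟩

end Pool.Agent.Helper86.CF
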